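import Mathlib

set_option autoImplicit false

/-!
# Dirac's generalisation of the Hajós construction does not preserve criticality

For all `k ≥ 5` and `3 ≤ h ≤ k - 2` we give `k`-critical graphs `G₁`, `G₂` and admissible data for
which the graph produced by Dirac's construction is not `k`-critical.
-/

namespace Pool.Agent.Results.MP_93b7f4_co.DiracFails

/-- `G` is `k`-critical: its chromatic number is `k` and every proper subgraph has chromatic
number less than `k`. -/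
def IsCritical {V : Type} (k : ℕ) (G : SimpleGraph V) : Prop :=
  G.chromaticNumber = (k : ℕ∞) ∧ ∀ G' : G.Subgraph, G' ≠ ⊤ → G'.coe.chromaticNumber < (k : ℕ∞)

/-! ### The construction -/

section Construction

variable {V₁ V₂ : Type} {h : ℕ}

/-- The identification of the `j`-th vertex `φ₁ j` of `H₁` with the `j`-th vertex `φ₂ j` of `H₂`. -/
def glueRel (φ₁ : Fin h ↪ V₁) (φ₂ : Fin h ↪ V₂) (p q : V₁ ⊕ V₂) : Prop :=
  ∃ j, p = Sum.inl (φ₁ j) ∧ q = Sum.inr (φ₂ j)

/-- The vertex set of the constructed graph: the disjoint union of `V₁` and `V₂` with `φ₁ j` and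
`φ₂ j` identified for all `j`. -/
abbrev GlueV (φ₁ : Fin h ↪ V₁) (φ₂ : Fin h ↪ V₂) : Type := Quot (glueRel φ₁ φ₂)

/-- The image of a vertex of `G₁` in the constructed graph. -/
def left (φ₁ : Fin h ↪ V₁) (φ₂ : Fin h ↪ V₂) (a : V₁) : GlueV φ₁ φ₂ := Quot.mk _ (Sum.inl a)

/-- The image of a vertex of `G₂` in the constructed graph. -/
def right (φ₁ : Fin h ↪ V₁) (φ₂ : Fin h ↪ V₂) (b : V₂) : GlueV φ₁ φ₂ := Quot.mk _ (Sum.inr b)

/-- Dirac's construction. `φ₁`, `φ₂` list the vertices of the complete subgraphs `H₁`, `H₂`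
(in the order given by the identifying bijection), `x₁ = φ₁ i`, `x₂ = φ₂ i`. The edges are the
(images of) edges of `G₁` other than `x₁y₁`, the edges of `G₂` other than `x₂y₂`, and the new
edge `y₁y₂`. -/
def diracGraph (G₁ : SimpleGraph V₁) (G₂ : SimpleGraph V₂) (φ₁ : Fin h ↪ V₁) (φ₂ : Fin h ↪ V₂)
    (i : Fin h) (y₁ : V₁) (y₂ : V₂) : SimpleGraph (GlueV φ₁ φ₂) :=
  SimpleGraph.fromRel fun p q =>
    (∃ a b, G₁.Adj a b ∧ s(a, b) ≠ s(φ₁ i, y₁) ∧ p = left φ₁ φ₂ a ∧ q = left φ₁ φ₂ b) ∨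
    (∃ a b, G₂.Adj a b ∧ s(a, b) ≠ s(φ₂ i, y₂) ∧ p = right φ₁ φ₂ a ∧ q = right φ₁ φ₂ b) ∨
    (p = left φ₁ φ₂ y₁ ∧ q = right φ₁ φ₂ y₂)

/-- The data of Dirac's construction for the parameters `k` and `h`: `G₁`, `G₂` are `k`-critical,
the `φ₁ j` (and the `φ₂ j`) form a complete subgraph on `h` vertices, and `y₁`, `y₂` are vertices
outside these complete subgraphs that are adjacent to `x₁ = φ₁ i` and `x₂ = φ₂ i`. -/
structure Admissible (k : ℕ) (G₁ : SimpleGraph V₁) (G₂ : SimpleGraph V₂) (φ₁ : Fin h ↪ V₁)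
    (φ₂ : Fin h ↪ V₂) (i : Fin h) (y₁ : V₁) (y₂ : V₂) : Prop where
  critical₁ : IsCritical k G₁
  critical₂ : IsCritical k G₂
  complete₁ : ∀ a b, a ≠ b → G₁.Adj (φ₁ a) (φ₁ b)
  complete₂ : ∀ a b, a ≠ b → G₂.Adj (φ₂ a) (φ₂ b)
  notMem₁ : y₁ ∉ Set.range φ₁
  notMem₂ : y₂ ∉ Set.range φ₂
  adj₁ : G₁.Adj (φ₁ i) y₁
  adj₂ : G₂.Adj (φ₂ i) y₂

variable (φ₁ : Fin h ↪ V₁) (φ₂ : Fin h ↪ V₂)

open Classical in
/-- auxiliary map back to `V₁` -/
noncomputable def backL : GlueV φ₁ φ₂ → Option V₁ :=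
  Quot.lift (Sum.elim (fun a => some a)
    (fun b => if hb : ∃ j, φ₂ j = b then some (φ₁ hb.choose) else none)) (by
    rintro _ _ ⟨j, rfl, rfl⟩
    have hb : ∃ j', φ₂ j' = φ₂ j := ⟨j, rfl⟩
    have : hb.choose = j := φ₂.injective hb.choose_spec
    simp only [Sum.elim_inl, Sum.elim_inr]
    rw [dif_pos hb, this])

open Classical in
/-- auxiliary map back to `V₂` -/
noncomputable def backR : GlueV φ₁ φ₂ → Option V₂ :=
  Quot.lift (Sum.elim
    (fun a => if ha : ∃ j, φ₁ j = a then some (φ₂ ha.choose) else none) (fun b => some b)) (by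
    rintro _ _ ⟨j, rfl, rfl⟩
    have ha : ∃ j', φ₁ j' = φ₁ j := ⟨j, rfl⟩
    have : ha.choose = j := φ₁.injective ha.choose_spec
    simp only [Sum.elim_inl, Sum.elim_inr]
    rw [dif_pos ha, this])

lemma left_inj {a b : V₁} (hab : left φ₁ φ₂ a = left φ₁ φ₂ b) : a = b := by
  have := congrArg (backL φ₁ φ₂) hab
  exact Option.some_injective _ this

lemma right_inj {a b : V₂} (hab : right φ₁ φ₂ a = right φ₁ φ₂ b) : a = b := by
  have := congrArg (backR φ₁ φ₂) hab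
  exact Option.some_injective _ this

lemma left_eq_right (j : Fin h) : left φ₁ φ₂ (φ₁ j) = right φ₁ φ₂ (φ₂ j) :=
  Quot.sound ⟨j, rfl, rfl⟩

lemma left_ne_right {a : V₁} (ha : a ∉ Set.range φ₁) (b : V₂) :
    left φ₁ φ₂ a ≠ right φ₁ φ₂ b := by
  intro hab
  have h1 := congrArg (backL φ₁ φ₂) hab
  have h2 : backL φ₁ φ₂ (left φ₁ φ₂ a) = some a := rfl
  rw [h2] at h1
  by_cases hb : ∃ j, φ₂ j = b
  · have h3 : backL φ₁ φ₂ (right φ₁ φ₂ b) = some (φ₁ hb.choose) := dif_pos hb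
    rw [h3] at h1
    exact ha ⟨_, (Option.some_injective _ h1).symm⟩
  · have h3 : backL φ₁ φ₂ (right φ₁ φ₂ b) = none := dif_neg hb
    rw [h3] at h1
    exact absurd h1 (by simp)

/-- The forcing property of one half of the construction with respect to the edge `uv` of the
complete subgraph, where `u = φ ju` and `v = φ jv`. -/
def Forces {V : Type} (n : ℕ) (G : SimpleGraph V) (φ : Fin h ↪ V) (i ju jv : Fin h) (y : V) : Prop :=
  ∀ c : V → Fin n, (∀ a b, G.Adj a b → s(a, b) ≠ s(φ ju, φ jv) → s(a, b) ≠ s(φ i, y) → c a ≠ c b) →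
    (c (φ ju) = c (φ jv) → c y = c (φ ju)) ∧ (c (φ ju) ≠ c (φ jv) → c y = c (φ i))

lemma not_critical {n : ℕ} (G₁ : SimpleGraph V₁) (G₂ : SimpleGraph V₂)
    (i ju jv : Fin h) (y₁ : V₁) (y₂ : V₂) (hG : G₁.Adj (φ₁ ju) (φ₁ jv))
    (hy₁ : y₁ ∉ Set.range φ₁) (F₁ : Forces n G₁ φ₁ i ju jv y₁) (F₂ : Forces n G₂ φ₂ i ju jv y₂) :
    ¬ IsCritical (n + 1) (diracGraph G₁ G₂ φ₁ φ₂ i y₁ y₂) := by
  rintro ⟨-, hcrit⟩
  set G := diracGraph G₁ G₂ φ₁ φ₂ i y₁ y₂ with hGdef
  have hadj : G.Adj (left φ₁ φ₂ (φ₁ ju)) (left φ₁ φ₂ (φ₁ jv)) := by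
    rw [hGdef, diracGraph, SimpleGraph.fromRel_adj]
    refine ⟨fun e => hG.ne (left_inj φ₁ φ₂ e), Or.inl (Or.inl ⟨_, _, hG, ?_, rfl, rfl⟩)⟩
    intro e
    rw [Sym2.eq_iff] at e
    rcases e with ⟨-, e⟩ | ⟨e, -⟩
    · exact hy₁ ⟨jv, e⟩
    · exact hy₁ ⟨ju, e⟩
  let e : Sym2 (GlueV φ₁ φ₂) := s(left φ₁ φ₂ (φ₁ ju), left φ₁ φ₂ (φ₁ jv))
  let G' : G.Subgraph := (⊤ : G.Subgraph).deleteEdges {e}
  have hne : G' ≠ ⊤ := by
    intro heq
    have h1 : G'.Adj (left φ₁ φ₂ (φ₁ ju)) (left φ₁ φ₂ (φ₁ jv)) := by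
      rw [heq]; exact hadj
    rw [SimpleGraph.Subgraph.deleteEdges_adj] at h1
    exact h1.2 rfl
  have hlt := hcrit G' hne
  have hcol : G'.coe.Colorable n := by
    rw [← SimpleGraph.chromaticNumber_le_iff_colorable]
    push_cast at hlt
    exact ENat.lt_add_one_iff (ENat.natCast_ne_top n) |>.1 hlt
  obtain ⟨C⟩ := hcol
  have hmem : ∀ p : GlueV φ₁ φ₂, p ∈ G'.verts := fun p => trivial
  have key : ∀ p q, G.Adj p q → s(p, q) ≠ e → C ⟨p, hmem p⟩ ≠ C ⟨q, hmem q⟩ := by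
    intro p q hpq hpe
    apply C.valid
    rw [SimpleGraph.Subgraph.coe_adj, SimpleGraph.Subgraph.deleteEdges_adj]
    exact ⟨hpq, hpe⟩
  let c₁ : V₁ → Fin n := fun a => C ⟨left φ₁ φ₂ a, hmem _⟩
  let c₂ : V₂ → Fin n := fun b => C ⟨right φ₁ φ₂ b, hmem _⟩
  have hc : ∀ j, c₁ (φ₁ j) = c₂ (φ₂ j) := by
    intro j
    show C ⟨left φ₁ φ₂ (φ₁ j), _⟩ = C ⟨right φ₁ φ₂ (φ₂ j), _⟩
    congr 2
    exact left_eq_right φ₁ φ₂ j
  have h1 := F₁ c₁ (by
    intro a b hab h1 h2
    apply key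
    · rw [hGdef, diracGraph, SimpleGraph.fromRel_adj]
      exact ⟨fun e => hab.ne (left_inj φ₁ φ₂ e), Or.inl (Or.inl ⟨a, b, hab, h2, rfl, rfl⟩)⟩
    · intro he
      apply h1
      rw [Sym2.eq_iff] at he ⊢
      rcases he with ⟨e1, e2⟩ | ⟨e1, e2⟩
      · exact Or.inl ⟨left_inj φ₁ φ₂ e1, left_inj φ₁ φ₂ e2⟩
      · exact Or.inr ⟨left_inj φ₁ φ₂ e1, left_inj φ₁ φ₂ e2⟩)
  have h2 := F₂ c₂ (by
    intro a b hab h1 h2
    apply key
    · rw [hGdef, diracGraph, SimpleGraph.fromRel_adj]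
      exact ⟨fun e => hab.ne (right_inj φ₁ φ₂ e),
        Or.inl (Or.inr (Or.inl ⟨a, b, hab, h2, rfl, rfl⟩))⟩
    · intro he
      apply h1
      rw [Sym2.eq_iff] at he ⊢
      rw [left_eq_right, left_eq_right] at he
      rcases he with ⟨e1, e2⟩ | ⟨e1, e2⟩
      · exact Or.inl ⟨right_inj φ₁ φ₂ e1, right_inj φ₁ φ₂ e2⟩
      · exact Or.inr ⟨right_inj φ₁ φ₂ e1, right_inj φ₁ φ₂ e2⟩)
  have h3 : c₁ y₁ ≠ c₂ y₂ := by
    apply key
    · rw [hGdef, diracGraph, SimpleGraph.fromRel_adj]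
      exact ⟨left_ne_right φ₁ φ₂ hy₁ y₂, Or.inl (Or.inr (Or.inr ⟨rfl, rfl⟩))⟩
    · intro he
      rw [Sym2.eq_iff] at he
      rcases he with ⟨e1, -⟩ | ⟨e1, -⟩
      · exact hy₁ ⟨_, (left_inj φ₁ φ₂ e1).symm⟩
      · exact hy₁ ⟨_, (left_inj φ₁ φ₂ e1).symm⟩
  by_cases hu : c₁ (φ₁ ju) = c₁ (φ₁ jv)
  · apply h3
    rw [h1.1 hu, h2.1 (by rw [← hc, ← hc]; exact hu), hc]
  · apply h3
    rw [h1.2 hu, h2.2 (by rw [← hc, ← hc]; exact hu), hc]

end Construction

/-! ### The base graph: a 5-critical graph on 10 vertices with 25 edges -/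

/-- the list of edges -/
def edgeList : List (ℕ × ℕ) := [(0, 1), (0, 2), (0, 3), (0, 4), (1, 2), (1, 6), (1, 8), (1, 9), (2, 4), (2, 5), (2, 7), (2, 8), (3, 4), (3, 5), (3, 6), (3, 7), (3, 9), (4, 5), (4, 7), (5, 9), (6, 7), (6, 8), (6, 9), (7, 8), (8, 9)]

/-- adjacency in the base graph -/
def adjB (a b : Fin 10) : Bool :=
  edgeList.contains (a.val, b.val) || edgeList.contains (b.val, a.val)

lemma adjB_symm (a b : Fin 10) : adjB a b = adjB b a := by
  revert a b; decide +kernel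

lemma adjB_irrefl (a : Fin 10) : adjB a a = false := by
  revert a; decide +kernel

set_option maxRecDepth 100000 in
set_option synthInstance.maxSize 100000 in
lemma search : ∀ x1 : Fin 4, ∀ x8 : Fin 4, x1 ≠ x8 → ∀ x6 : Fin 4, x1 ≠ x6 → x8 ≠ x6 → ∀ x9 : Fin 4, x1 ≠ x9 → x8 ≠ x9 → x6 ≠ x9 → ∀ x3 : Fin 4, x6 ≠ x3 → x9 ≠ x3 → ∀ x7 : Fin 4, x8 ≠ x7 → x6 ≠ x7 → x3 ≠ x7 → ∀ x2 : Fin 4, x8 ≠ x2 → x7 ≠ x2 → ∀ x4 : Fin 4, x3 ≠ x4 → x7 ≠ x4 → x2 ≠ x4 → ∀ x5 : Fin 4, x9 ≠ x5 → x3 ≠ x5 → x2 ≠ x5 → x4 ≠ x5 → ∀ x0 : Fin 4, x1 ≠ x0 → x2 ≠ x0 → x4 ≠ x0 → ((x1 = x2 → x3 = x1) ∧ (x1 ≠ x2 → x3 = x0)) := by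
  decide +kernel

lemma base_forces (c : Fin 10 → Fin 4)
    (H : ∀ a b : Fin 10, adjB a b = true → s(a, b) ≠ s((1 : Fin 10), 2) →
      s(a, b) ≠ s((0 : Fin 10), 3) → c a ≠ c b) :
    (c 1 = c 2 → c 3 = c 1) ∧ (c 1 ≠ c 2 → c 3 = c 0) :=
  search (c 1) (c 8) (H 1 8 (by decide) (by decide) (by decide)) (c 6) (H 1 6 (by decide) (by decide) (by decide)) (H 8 6 (by decide) (by decide) (by decide)) (c 9) (H 1 9 (by decide) (by decide) (by decide)) (H 8 9 (by decide) (by decide) (by decide)) (H 6 9 (by decide) (by decide) (by decide)) (c 3) (H 6 3 (by decide) (by decide) (by decide)) (H 9 3 (by decide) (by decide) (by decide)) (c 7) (H 8 7 (by decide) (by decide) (by decide)) (H 6 7 (by decide) (by decide) (by decide)) (H 3 7 (by decide) (by decide) (by decide)) (c 2) (H 8 2 (by decide) (by decide) (by decide)) (H 7 2 (by decide) (by decide) (by decide)) (c 4) (H 3 4 (by decide) (by decide) (by decide)) (H 7 4 (by decide) (by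 decide) (by decide)) (H 2 4 (by decide) (by decide) (by decide)) (c 5) (H 9 5 (by decide) (by decide) (by decide)) (H 3 5 (by decide) (by decide) (by decide)) (H 2 5 (by decide) (by decide) (by decide)) (H 4 5 (by decide) (by decide) (by decide)) (c 0) (H 1 0 (by decide) (by decide) (by decide)) (H 2 0 (by decide) (by decide) (by decide)) (H 4 0 (by decide) (by decide) (by decide))

/-- a 4-colouring of the base graph minus the edge `ab` -/
def col (a b : ℕ) : Fin 10 → Fin 4 := match a, b with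
  | 0, 1 => ![2, 2, 0, 3, 1, 2, 0, 2, 3, 1]
  | 0, 2 => ![3, 2, 3, 0, 1, 2, 1, 2, 0, 3]
  | 0, 3 => ![2, 1, 0, 2, 3, 1, 0, 1, 2, 3]
  | 0, 4 => ![3, 1, 0, 2, 3, 1, 0, 1, 2, 3]
  | 1, 2 => ![2, 0, 0, 0, 1, 3, 1, 2, 3, 2]
  | 1, 6 => ![2, 3, 0, 0, 1, 3, 3, 2, 1, 2]
  | 1, 8 => ![2, 3, 0, 0, 1, 3, 1, 2, 3, 2]
  | 1, 9 => ![3, 2, 0, 0, 1, 3, 1, 2, 3, 2]
  | 2, 4 => ![3, 2, 1, 0, 1, 2, 1, 2, 0, 3]
  | 2, 5 => ![2, 0, 3, 0, 1, 3, 3, 2, 1, 2]
  | 2, 7 => ![2, 0, 3, 0, 1, 2, 2, 3, 1, 3]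
  | 2, 8 => ![3, 2, 0, 0, 1, 2, 1, 2, 0, 3]
  | 3, 4 => ![2, 1, 0, 1, 1, 2, 0, 3, 2, 3]
  | 3, 5 => ![3, 1, 0, 1, 2, 1, 0, 3, 2, 3]
  | 3, 6 => ![3, 1, 0, 0, 2, 1, 0, 1, 2, 3]
  | 3, 7 => ![2, 1, 0, 1, 3, 2, 0, 1, 2, 3]
  | 3, 9 => ![3, 1, 0, 0, 2, 1, 3, 1, 2, 0]
  | 4, 5 => ![3, 1, 0, 1, 2, 2, 0, 3, 2, 3]
  | 4, 7 => ![2, 1, 0, 1, 3, 2, 0, 3, 2, 3]
  | 5, 9 => ![3, 1, 0, 1, 2, 3, 0, 3, 2, 3]
  | 6, 7 => ![3, 1, 0, 1, 2, 3, 3, 3, 2, 0]
  | 6, 8 => ![2, 1, 0, 0, 1, 3, 3, 2, 3, 2]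
  | 6, 9 => ![3, 1, 0, 0, 2, 1, 3, 1, 2, 3]
  | 7, 8 => ![2, 1, 0, 1, 3, 2, 0, 2, 2, 3]
  | 8, 9 => ![2, 1, 0, 0, 3, 1, 2, 1, 3, 3]
  | _, _ => fun _ => 0

lemma col_spec : ∀ a b : Fin 10, a < b → adjB a b = true → ∀ p q : Fin 10, adjB p q = true →
    s(p, q) ≠ s(a, b) → col a b p ≠ col a b q := by
  decide +kernel

/-- a 5-colouring of the base graph -/
def col5 (v : Fin 10) : Fin 5 := if v = 0 then 4 else (col 0 1 v).castSucc

lemma col5_spec : ∀ p q : Fin 10, adjB p q = true → col5 p ≠ col5 q := by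
  decide +kernel

lemma exists_nbr : ∀ a : Fin 10, ∃ b : Fin 10, adjB a b = true := by
  decide +kernel

lemma exists_col (a b : Fin 10) (hab : adjB a b = true) :
    ∃ c : Fin 10 → Fin 4, ∀ p q : Fin 10, adjB p q = true → s(p, q) ≠ s(a, b) → c p ≠ c q := by
  rcases lt_trichotomy a b with h | h | h
  · exact ⟨col a b, col_spec a b h hab⟩
  · subst h
    rw [adjB_irrefl] at hab
    exact absurd hab (by decide)
  · refine ⟨col b a, fun p q hpq hs => col_spec b a h (by rw [adjB_symm]; exact hab) p q hpq ?_⟩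
    rw [Sym2.eq_swap (a := b)]
    exact hs

/-! ### Joins with complete graphs -/

/-- The join of the base graph with the complete graph on `m` vertices. -/
def joinG (m : ℕ) : SimpleGraph (Fin 10 ⊕ Fin m) where
  Adj p q := match p, q with
    | .inl a, .inl b => adjB a b = true
    | .inl _, .inr _ => True
    | .inr _, .inl _ => True
    | .inr i, .inr j => i ≠ j
  symm := ⟨by
    rintro (a | i) (b | j) h
    · show adjB b a = true
      rw [adjB_symm]; exact h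
    · trivial
    · trivial
    · exact Ne.symm h⟩
  loopless := ⟨by
    rintro (a | i) h
    · have h' : adjB a a = true := h
      rw [adjB_irrefl] at h'
      exact absurd h' (by decide)
    · exact h rfl⟩

lemma join_ll (m : ℕ) (a b : Fin 10) : (joinG m).Adj (.inl a) (.inl b) ↔ adjB a b = true := Iff.rfl
lemma join_lr (m : ℕ) (a : Fin 10) (i : Fin m) : (joinG m).Adj (.inl a) (.inr i) := trivial
lemma join_rl (m : ℕ) (a : Fin 10) (i : Fin m) : (joinG m).Adj (.inr i) (.inl a) := trivial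
lemma join_rr (m : ℕ) (i j : Fin m) : (joinG m).Adj (.inr i) (.inr j) ↔ i ≠ j := Iff.rfl

lemma join_forces (m : ℕ) (c : Fin 10 ⊕ Fin m → Fin (4 + m))
    (H : ∀ p q, (joinG m).Adj p q → s(p, q) ≠ s(Sum.inl (1 : Fin 10), Sum.inl (2 : Fin 10)) →
      s(p, q) ≠ s(Sum.inl (0 : Fin 10), Sum.inl (3 : Fin 10)) → c p ≠ c q) :
    (c (.inl 1) = c (.inl 2) → c (.inl 3) = c (.inl 1)) ∧
    (c (.inl 1) ≠ c (.inl 2) → c (.inl 3) = c (.inl 0)) := by
  classical
  let T : Finset (Fin (4 + m)) := Finset.univ.image (fun i : Fin m => c (.inr i))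
  have hT : T.card = m := by
    rw [Finset.card_image_of_injective]
    · simp
    · intro i j hij
      by_contra hne
      refine H (.inr i) (.inr j) hne ?_ ?_ hij
      · intro e
        rw [Sym2.eq_iff] at e
        rcases e with ⟨e, -⟩ | ⟨e, -⟩ <;> exact absurd e (by simp)
      · intro e
        rw [Sym2.eq_iff] at e
        rcases e with ⟨e, -⟩ | ⟨e, -⟩ <;> exact absurd e (by simp)
  have hTc : (Tᶜ).card = 4 := by
    rw [Finset.card_compl, hT, Fintype.card_fin]; omega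
  have hmem : ∀ a : Fin 10, c (.inl a) ∈ Tᶜ := by
    intro a
    rw [Finset.mem_compl, Finset.mem_image]
    rintro ⟨i, -, hi⟩
    refine H (.inr i) (.inl a) (join_rl m a i) ?_ ?_ hi
    · intro e
      rw [Sym2.eq_iff] at e
      rcases e with ⟨e, -⟩ | ⟨e, -⟩ <;> exact absurd e (by simp)
    · intro e
      rw [Sym2.eq_iff] at e
      rcases e with ⟨e, -⟩ | ⟨e, -⟩ <;> exact absurd e (by simp)
  let e := Finset.equivFinOfCardEq hTc
  let c' : Fin 10 → Fin 4 := fun a => e ⟨c (.inl a), hmem a⟩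
  have hc' : ∀ a b, c' a = c' b ↔ c (.inl a) = c (.inl b) := by
    intro a b
    constructor
    · intro h
      have := e.injective h
      exact congrArg Subtype.val this
    · intro h
      show e _ = e _
      congr 1
      exact Subtype.ext h
  have hb := base_forces c' (by
    intro a b hab h1 h2 h3
    refine H (.inl a) (.inl b) hab ?_ ?_ ((hc' a b).1 h3)
    · intro e
      apply h1
      rw [Sym2.eq_iff] at e ⊢
      simpa using e
    · intro e
      apply h2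
      rw [Sym2.eq_iff] at e ⊢
      simpa using e)
  rw [hc', hc'] at hb
  have h4 := hb.2
  rw [Ne, hc', hc'] at h4
  exact ⟨hb.1, h4⟩

/-- For every edge `p₀q₀` of the join there is a proper `(4 + m)`-colouring of the join minus that
edge. -/
lemma join_edge (m : ℕ) (p₀ q₀ : Fin 10 ⊕ Fin m) (h₀ : (joinG m).Adj p₀ q₀) :
    ∃ (α : Type) (_ : Fintype α) (c : Fin 10 ⊕ Fin m → α), Fintype.card α = 4 + m ∧
      ∀ p q, (joinG m).Adj p q → s(p, q) ≠ s(p₀, q₀) → c p ≠ c q := by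
  classical
  -- the mixed case
  have mixed : ∀ (a : Fin 10) (i : Fin m), ∃ (α : Type) (_ : Fintype α) (c : Fin 10 ⊕ Fin m → α),
      Fintype.card α = 4 + m ∧ ∀ p q, (joinG m).Adj p q →
        s(p, q) ≠ s(Sum.inl a, Sum.inr i) → c p ≠ c q := by
    intro a i
    obtain ⟨b, hb⟩ := exists_nbr a
    obtain ⟨d, hd⟩ := exists_col a b hb
    refine ⟨Fin 4 ⊕ Fin m, inferInstance,
      Sum.elim (fun v => if v = a then Sum.inr i else Sum.inl (d v)) (fun j => Sum.inr j),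
      by simp, ?_⟩
    rintro (v | j) (w | l) hpq hs
    · simp only [Sum.elim_inl]
      have hvw : v ≠ w := by
        rintro rfl
        exact (joinG m).loopless.irrefl _ hpq
      split_ifs with h1 h2 h2
      · exact absurd (h1.trans h2.symm) hvw
      · simp
      · simp
      · intro h
        refine hd v w hpq ?_ (Sum.inl_injective h)
        intro e
        rw [Sym2.eq_iff] at e
        rcases e with ⟨e, -⟩ | ⟨-, e⟩
        · exact h1 e
        · exact h2 e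
    · simp only [Sum.elim_inl, Sum.elim_inr]
      split_ifs with h1
      · intro h
        apply hs
        rw [h1, Sum.inr_injective h]
      · simp
    · simp only [Sum.elim_inl, Sum.elim_inr]
      split_ifs with h1
      · intro h
        apply hs
        rw [h1, Sum.inr_injective h, Sym2.eq_swap]
      · simp
    · simp only [Sum.elim_inr]
      intro h
      exact hpq (Sum.inr_injective h)
  match p₀, q₀, h₀ with
  | .inl a, .inl b, h₀ =>
    obtain ⟨d, hd⟩ := exists_col a b h₀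
    refine ⟨Fin 4 ⊕ Fin m, inferInstance, Sum.map d id, by simp, ?_⟩
    rintro (v | j) (w | l) hpq hs
    · simp only [Sum.map_inl]
      intro h
      refine hd v w hpq ?_ (Sum.inl_injective h)
      intro e
      apply hs
      rw [Sym2.eq_iff] at e ⊢
      simpa using e
    · simp
    · simp
    · simp only [Sum.map_inr, id]
      intro h
      exact hpq (Sum.inr_injective h)
  | .inl a, .inr i, _ => exact mixed a i
  | .inr i, .inl a, _ =>
    obtain ⟨α, hα, c, hcard, hc⟩ := mixed a i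
    refine ⟨α, hα, c, hcard, fun p q hpq hs => hc p q hpq ?_⟩
    rw [Sym2.eq_swap (a := Sum.inl a)]
    exact hs
  | .inr i, .inr j, h₀ =>
    have hij : i ≠ j := h₀
    refine ⟨Fin 5 ⊕ {l : Fin m // l ≠ j}, inferInstance,
      Sum.elim (fun v => Sum.inl (col5 v))
        (fun l => if h : l = j then Sum.inr ⟨i, hij⟩ else Sum.inr ⟨l, h⟩), ?_, ?_⟩
    · have hm : 0 < m := Fin.pos i
      rw [Fintype.card_sum, Fintype.card_fin, Fintype.card_subtype_compl, Fintype.card_fin,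
        Fintype.card_subtype_eq]
      omega
    · rintro (v | l) (w | l') hpq hs
      · simp only [Sum.elim_inl]
        intro h
        exact col5_spec v w hpq (Sum.inl_injective h)
      · simp only [Sum.elim_inl, Sum.elim_inr]
        split_ifs <;> simp
      · simp only [Sum.elim_inl, Sum.elim_inr]
        split_ifs <;> simp
      · simp only [Sum.elim_inr]
        have hne : l ≠ l' := hpq
        split_ifs with h1 h2 h2
        · exact absurd (h1.trans h2.symm) hne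
        · intro h
          have h3 : i = l' := congrArg Subtype.val (Sum.inr_injective h)
          apply hs
          rw [h1, ← h3, Sym2.eq_swap]
        · intro h
          have h3 : l = i := congrArg Subtype.val (Sum.inr_injective h)
          apply hs
          rw [h2, h3]
        · intro h
          exact hne (congrArg Subtype.val (Sum.inr_injective h))

lemma join_colorable (m : ℕ) : (joinG m).Colorable (5 + m) := by
  have C : (joinG m).Coloring (Fin 5 ⊕ Fin m) := SimpleGraph.Coloring.mk (Sum.map col5 id) (by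
    rintro (v | j) (w | l) hpq
    · simp only [Sum.map_inl]
      intro h
      exact col5_spec v w hpq (Sum.inl_injective h)
    · simp
    · simp
    · simp only [Sum.map_inr, id]
      intro h
      exact hpq (Sum.inr_injective h))
  have := C.colorable
  simpa using this

lemma join_not_colorable (m : ℕ) : ¬ (joinG m).Colorable (4 + m) := by
  rintro ⟨C⟩
  have h := join_forces m C (fun p q hpq _ _ => C.valid hpq)
  have h12 : C (.inl 1) ≠ C (.inl 2) := C.valid (by rw [join_ll]; decide +kernel)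
  have h03 : C (.inl 0) ≠ C (.inl 3) := C.valid (by rw [join_ll]; decide +kernel)
  exact h03 (h.2 h12).symm

lemma join_exists_nbr (m : ℕ) (p : Fin 10 ⊕ Fin m) : ∃ q, (joinG m).Adj p q := by
  rcases p with a | i
  · obtain ⟨b, hb⟩ := exists_nbr a
    exact ⟨.inl b, hb⟩
  · exact ⟨.inl 0, join_rl m 0 i⟩

lemma join_critical (m : ℕ) : IsCritical (5 + m) (joinG m) := by
  refine ⟨?_, ?_⟩
  · apply le_antisymm
    · exact (join_colorable m).chromaticNumber_le
    · by_contra hlt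
      push Not at hlt
      apply join_not_colorable m
      rw [← SimpleGraph.chromaticNumber_le_iff_colorable]
      have : ((5 + m : ℕ) : ℕ∞) = ((4 + m : ℕ) : ℕ∞) + 1 := by
        push_cast
        rw [add_right_comm]
        norm_num
      rw [this] at hlt
      exact ENat.lt_add_one_iff (ENat.natCast_ne_top _) |>.1 hlt
  · intro G' hne
    obtain ⟨p₀, q₀, h₀, h₀'⟩ : ∃ p₀ q₀, (joinG m).Adj p₀ q₀ ∧ ¬ G'.Adj p₀ q₀ := by
      by_contra hcon
      push Not at hcon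
      apply hne
      ext p q
      · simp only [SimpleGraph.Subgraph.verts_top, Set.mem_univ, iff_true]
        obtain ⟨q, hq⟩ := join_exists_nbr m p
        exact (hcon p q hq).fst_mem
      · simp only [SimpleGraph.Subgraph.top_adj]
        exact ⟨fun h => h.adj_sub, fun h => hcon p q h⟩
    obtain ⟨α, hα, c, hcard, hc⟩ := join_edge m p₀ q₀ h₀
    have C : G'.coe.Coloring α := SimpleGraph.Coloring.mk (fun p => c p.1) (by
      rintro ⟨p, hp⟩ ⟨q, hq⟩ hpq
      have hpq' : G'.Adj p q := hpq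
      apply hc p q hpq'.adj_sub
      intro e
      rw [Sym2.eq_iff] at e
      rcases e with ⟨e1, e2⟩ | ⟨e1, e2⟩
      · rw [e1, e2] at hpq'
        exact h₀' hpq'
      · rw [e1, e2] at hpq'
        exact h₀' hpq'.symm)
    have h1 := C.colorable.chromaticNumber_le
    rw [hcard] at h1
    refine lt_of_le_of_lt h1 ?_
    exact_mod_cast (by omega : 4 + m < 5 + m)

/-- The complete subgraph on `h` vertices in the join: it contains the triangle `0, 1, 2` of the
base graph and `h - 3` further vertices. -/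
def phiFun (m h : ℕ) (hm : h ≤ 3 + m) (j : Fin h) : Fin 10 ⊕ Fin m :=
  if hj : j.val < 3 then .inl ⟨j.val, by omega⟩ else .inr ⟨j.val - 3, by have := j.isLt; omega⟩

lemma phiFun_adj (m h : ℕ) (hm : h ≤ 3 + m) (a b : Fin h) (hab : a ≠ b) :
    (joinG m).Adj (phiFun m h hm a) (phiFun m h hm b) := by
  have tri : ∀ a b : Fin 10, a.val < 3 → b.val < 3 → a ≠ b → adjB a b = true := by decide +kernel
  have hab' : a.val ≠ b.val := fun h => hab (Fin.ext h)
  unfold phiFun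
  split_ifs with h1 h2 h2
  · rw [join_ll]
    apply tri _ _ h1 h2
    intro e
    rw [Fin.ext_iff] at e
    exact hab' e
  · exact join_lr _ _ _
  · exact join_rl _ _ _
  · rw [join_rr]
    intro e
    have := congrArg Fin.val e
    simp only at this
    omega

/-- `phiFun` as an embedding. -/
def phi (m h : ℕ) (hm : h ≤ 3 + m) : Fin h ↪ Fin 10 ⊕ Fin m where
  toFun := phiFun m h hm
  inj' := by
    intro a b hab
    by_contra hne
    have := phiFun_adj m h hm a b hne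
    rw [hab] at this
    exact (joinG m).loopless.irrefl _ this

lemma phi_zero (m h : ℕ) (hm : h ≤ 3 + m) (h0 : 0 < h) : phi m h hm ⟨0, h0⟩ = .inl 0 := rfl
lemma phi_one (m h : ℕ) (hm : h ≤ 3 + m) (h0 : 1 < h) : phi m h hm ⟨1, h0⟩ = .inl 1 := rfl
lemma phi_two (m h : ℕ) (hm : h ≤ 3 + m) (h0 : 2 < h) : phi m h hm ⟨2, h0⟩ = .inl 2 := rfl

lemma three_notMem (m h : ℕ) (hm : h ≤ 3 + m) :
    (Sum.inl (3 : Fin 10) : Fin 10 ⊕ Fin m) ∉ Set.range (phi m h hm) := by
  rintro ⟨j, hj⟩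
  have hj' : phiFun m h hm j = .inl 3 := hj
  unfold phiFun at hj'
  split_ifs at hj' with h1
  have := Sum.inl_injective hj'
  have := congrArg Fin.val this
  simp only at this
  have h3 : ((3 : Fin 10) : ℕ) = 3 := rfl
  omega

/-- **Dirac's construction does not preserve criticality.** For all `k ≥ 5` and `3 ≤ h ≤ k - 2`
there are finite graphs `G₁`, `G₂` and admissible data for which the graph produced by Dirac's
construction is not `k`-critical. -/
theorem result (k h : ℕ) (hk : 5 ≤ k) (hh : 3 ≤ h) (hhk : h ≤ k - 2) :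
    ∃ (V₁ V₂ : Type) (_ : Finite V₁) (_ : Finite V₂) (G₁ : SimpleGraph V₁) (G₂ : SimpleGraph V₂)
      (φ₁ : Fin h ↪ V₁) (φ₂ : Fin h ↪ V₂) (i : Fin h) (y₁ : V₁) (y₂ : V₂),
      Admissible k G₁ G₂ φ₁ φ₂ i y₁ y₂ ∧ ¬ IsCritical k (diracGraph G₁ G₂ φ₁ φ₂ i y₁ y₂) := by
  obtain ⟨m, rfl⟩ : ∃ m, k = 5 + m := ⟨k - 5, by omega⟩
  have hm : h ≤ 3 + m := by omega
  have hadj : (joinG m).Adj (phi m h hm ⟨0, by omega⟩) (.inl 3) := by
    rw [phi_zero, join_ll]; decide +kernel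
  have hadj12 : (joinG m).Adj (phi m h hm ⟨1, by omega⟩) (phi m h hm ⟨2, by omega⟩) :=
    phiFun_adj m h hm ⟨1, by omega⟩ ⟨2, by omega⟩ (by
      intro e
      rw [Fin.ext_iff] at e
      simp at e)
  have hF : Forces (4 + m) (joinG m) (phi m h hm) ⟨0, by omega⟩ ⟨1, by omega⟩ ⟨2, by omega⟩
      (.inl 3) := by
    intro c hc
    rw [phi_zero, phi_one, phi_two] at *
    exact join_forces m c hc
  refine ⟨Fin 10 ⊕ Fin m, Fin 10 ⊕ Fin m, inferInstance, inferInstance, joinG m, joinG m,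
    phi m h hm, phi m h hm, ⟨0, by omega⟩, .inl 3, .inl 3,
    ⟨join_critical m, join_critical m, phiFun_adj m h hm, phiFun_adj m h hm,
      three_notMem m h hm, three_notMem m h hm, hadj, hadj⟩, ?_⟩
  have := not_critical (phi m h hm) (phi m h hm) (joinG m) (joinG m) ⟨0, by omega⟩ ⟨1, by omega⟩
    ⟨2, by omega⟩ (.inl 3) (.inl 3) hadj12 (three_notMem m h hm) hF hF
  rwa [show 5 + m = (4 + m) + 1 by omega]

end Pool.Agent.Results.MP_93b7f4_co.DiracFails
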